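import Pool.Agent.Q291.HEA.Model
import Pool.Agent.Q291.HEA.Fin3

/-!
# Ground states of the Edwards-Anderson model on the hierarchical lattices of all dimensions

The infinite hierarchical lattice, its bonds `Bond B e` (with ends `lend 0 b`, `rend 0 b`) and sites
`Site B e` are defined in `Pool/Agent/Q291/HEA/Model.lean`. Dimension `d` corresponds to
`B = 2 ^ (d - 1)` branches.
-/

set_option autoImplicit false

open MeasureTheory

namespace Pool.Agent.Results.MP_37ff18_mp.HierarchicalGroundStates

open Pool.Agent.Q291.HEA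

/-- `σ` is a ground state for the couplings `J` on the bonds of a graph with bonds `E`, sites `V` and
ends `l`, `r`: every change of finitely many spins, at least one, strictly raises the energy
`-∑ J σ σ` (the difference is a finite sum if each site has finitely many bonds). `true` stands for
the spin `1`, `false` for `-1`. -/
def IsGroundState {V E : Type} (l r : E → V) (J : E → ℝ) (σ : V → Bool) : Prop :=
  ∀ σ' : V → Bool, σ' ≠ σ → {v | σ' v ≠ σ v}.Finite →
    0 < ∑ᶠ b, J b * (sgn (σ (l b)) * sgn (σ (r b)) - sgn (σ' (l b)) * sgn (σ' (r b)))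

/-- Let `e` take both values infinitely often. On the hierarchical lattice with `B ≥ 2` branches
(every dimension `d ≥ 2`) each site has finitely many bonds, and for independent couplings with a
symmetric law `μ` without atoms there is almost surely exactly one pair `{σ, -σ}` of ground states. -/
theorem result (e : ℕ → Bool)
    (he : (∀ n, ∃ k, n ≤ k ∧ e k = true) ∧ ∀ n, ∃ k, n ≤ k ∧ e k = false) (B : ℕ) [NeZero B]
    (hB : 2 ≤ B) :
    (∀ v : Site B e, {b : Bond B e | lend 0 b = v ∨ rend 0 b = v}.Finite) ∧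
    ∀ (μ : Measure ℝ) [IsProbabilityMeasure μ], μ.map (fun x => -x) = μ → (∀ x, μ {x} = 0) →
      ∀ᵐ J ∂(Measure.infinitePi fun _ : Bond B e => μ), ∃ σ : Site B e → Bool, ∀ τ,
        IsGroundState (lend 0) (rend 0) J τ ↔ τ = σ ∨ τ = fun v => !(σ v) := by
  refine ⟨(Pool.Agent.Q291.HEA.Bas.round1 e he).1 B, fun μ _ hs ha => ?_⟩
  exact thmG io Pool.Agent.Q277.HEA.GEN.t_GEN Pool.Agent.Q261.HEA.GEXI.t_GEXI
    Pool.Agent.Q277.HEA.CONN.t_CON (Pool.Agent.Q137.HEA.GSU.t_GSU Pool.Agent.Q137.HEA.DECZ.t_DECZ)
    e he B hB μ hs ha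

end Pool.Agent.Results.MP_37ff18_mp.HierarchicalGroundStates
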