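import Pool.Agent.Q83.SG.Fin

/-!
# Incongruent ground states of spin glasses with unfrustrated three-dimensional planes

In `ℤ^(3+m)`, `m ≥ 1`, almost surely there are incongruent ground states if the couplings in two
(or more, for instance in all) planes parallel to `ℤ³` are unfrustrated and strong on average, and
all the other couplings are independent with a symmetric law.
-/

set_option autoImplicit false

open MeasureTheory ProbabilityTheory
open scoped NNReal

namespace Pool.Agent.Results.MP_37ff18_mp.StrongPlanes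

/-- The sites of `ℤ^(3+m) = ℤ³ × ℤ^m`. The plane of height `h ∈ ℤ^m` is `ℤ³ × {h}`. -/
abbrev Site (m : ℕ) : Type := (Fin 3 → ℤ) × (Fin m → ℤ)

/-- The bond `(v, a)` joins `v` and `v + dir a`; each bond of `ℤ^(3+m)` is listed once. -/
abbrev Bond (m : ℕ) : Type := Site m × (Fin 3 ⊕ Fin m)

/-- The unit vectors: `inl i` is a direction of the planes, `inr j` is a transversal direction. -/
def dir {m : ℕ} : Fin 3 ⊕ Fin m → Site m
  | Sum.inl i => (Pi.single i 1, 0)
  | Sum.inr j => (0, Pi.single j 1)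

/-- The second end of a bond. -/
def far {m : ℕ} (b : Bond m) : Site m := b.1 + dir b.2

/-- `true` stands for `1`, `false` for `-1`. -/
def sign (a : Bool) : ℝ := if a then 1 else -1

open Classical in
/-- The couplings: `J b` on all bonds, except for the bonds `b = {u, v}` which lie inside one of
the planes of heights `h ∈ H`, where the coupling is `ε_u ε_v ψ (J b)`. -/
noncomputable def couplings {m : ℕ} (ε : Site m → Bool) (H : Set (Fin m → ℤ)) (ψ : ℝ → ℝ)
    (J : Bond m → ℝ) : Bond m → ℝ :=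
  fun b => if b.2.isLeft ∧ b.1.2 ∈ H then sign (ε b.1) * sign (ε (far b)) * ψ (J b) else J b

/-- Ground states for the couplings `K`: every change of finitely many spins (of at least one spin)
strictly raises the energy `-∑ K_uv σ_u σ_v`. -/
def IsGroundState {m : ℕ} (K : Bond m → ℝ) (σ : Site m → ℝ) : Prop :=
  (∀ v, σ v = 1 ∨ σ v = -1) ∧ ∀ ρ : Site m → ℝ, (∀ v, ρ v = 1 ∨ ρ v = -1) →
    {v | ρ v ≠ σ v}.Finite → ρ ≠ σ →
      0 < ∑ᶠ b : Bond m, K b * (σ b.1 * σ (far b) - ρ b.1 * ρ (far b))

/-- **Theorem.** Let `m ≥ 1` and `c ≥ 0`. There is `K₀` such that for every atomless symmetric law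
`μ` which is sub-Gaussian with variance proxy `c`, every measurable `ψ` with
`∫ exp (-ψ) dμ ≤ exp (-K₀)` (for instance `ψ ≥ K₀`, or `ψ x = x + K₁` with `K₁ ≥ K₀ + c / 2`),
all signs `ε` and every set `H ⊆ ℤ^m` of heights, for almost all realisations `J` of independent
couplings of law `μ`, the spin glass with the couplings `couplings ε H ψ J` on `ℤ^(3+m)` has
* two incongruent ground states, if `H` has at least two elements;
* infinitely many ground states, if `H` is infinite. -/
theorem result (m : ℕ) (c : ℝ≥0) (hm : 1 ≤ m) :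
    ∃ K₀ : ℝ, ∀ (μ : Measure ℝ) [IsProbabilityMeasure μ], (∀ x, μ {x} = 0) →
      μ.map (fun x => -x) = μ → HasSubgaussianMGF id c μ →
      ∀ ψ : ℝ → ℝ, Measurable ψ →
        ∫⁻ x, ENNReal.ofReal (Real.exp (-ψ x)) ∂μ ≤ ENNReal.ofReal (Real.exp (-K₀)) →
      ∀ (ε : Site m → Bool) (H : Set (Fin m → ℤ)),
        (H.Nontrivial → ∀ᵐ J ∂(Measure.infinitePi fun _ : Bond m => μ), ∃ σ τ : Site m → ℝ,
          IsGroundState (couplings ε H ψ J) σ ∧ IsGroundState (couplings ε H ψ J) τ ∧
            τ ≠ σ ∧ τ ≠ -σ) ∧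
        (H.Infinite → ∀ᵐ J ∂(Measure.infinitePi fun _ : Bond m => μ),
          {σ | IsGroundState (couplings ε H ψ J) σ}.Infinite) := by
  obtain ⟨K₀, h⟩ := Q83.SG.a_T2c m c hm
  have e : ∀ a, (dir a : Site m) = Q83.SG.dir a := by
    intro a
    cases a <;> rfl
  have ef : ∀ b : Bond m, far b = Q83.SG.far b := by
    intro b
    unfold far Q83.SG.far
    rw [e]
  have ec : ∀ (ε : Site m → Bool) (H : Set (Fin m → ℤ)) (ψ : ℝ → ℝ) (J : Bond m → ℝ),
      couplings ε H ψ J = Q83.SG.plantE ε H ψ J := by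
    intro ε H ψ J
    funext b
    unfold couplings Q83.SG.plantE
    rw [ef]
    rfl
  have eg : ∀ (K : Bond m → ℝ) (σ : Site m → ℝ), IsGroundState K σ ↔ Q83.SG.IsGS K σ := by
    intro K σ
    unfold IsGroundState Q83.SG.IsGS
    simp only [ef]
  refine ⟨K₀, fun μ _ hat hsym hsub ψ hψ hS ε H => ?_⟩
  simp only [ec, eg]
  exact h μ hat hsym hsub ψ hψ hS ε H

end Pool.Agent.Results.MP_37ff18_mp.StrongPlanes
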