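import Pool.Agent.Q233.WC.Hrn
import Pool.Agent.Q233.WC.Hgr
import Pool.Agent.Q233.WC.Zd

/-!
# Edwards-Anderson ground states: weak boundaries

Sites `X`, bonds `E`, the bond `e` joins the sites `a e` and `b e`; `R` is an infinite connected set
of sites with finitely many bonds at each site. The theorem: for independent couplings whose laws
have no atoms there is almost surely exactly one pair of ground states on `R`, if there are finite
sets of sites which exhaust `R`, with disjoint boundaries, such that for every `δ > 0` the
probabilities of the events that the sum of `|J|` over the boundary is at most `δ` have an infinite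
sum. This holds for i.i.d. couplings if the law charges every neighbourhood of `0` and every finite
set of sites is contained in a finite set with at most `m` boundary bonds, for horns in `ℤ^d` whose
width `w` satisfies `(2 w(n) + 1)^(d - 1) log (2 w(n) + 2) ≤ log n / (2 κ d)` if the law of the
couplings gives mass at least `c t^κ` to `[-t, t]`, and for couplings `c_e J_e` on all of `ℤ^d` if
the sum of `|c_e|` over the boundary of the cube of half side `n` tends to `0`.
The assumption on the law near `0` cannot be omitted: two lines joined by one bond have enclosing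
sets with four boundary bonds, but for couplings with `1 ≤ |J| < 2` there are incongruent ground
states.

Proof. If two ground states disagree on a bond `e`, and `e` lies inside `B`, then the coupling of
`e` differs from a function of the other couplings inside `B` by at most the sum of `|J|` over the
boundary of `B`. Take the first `B` of the sequence (after `e`) whose boundary has strength at
most `δ`: this choice does not depend on the coupling of `e`, so the probability is at most the
largest mass of an interval of length `2 δ`.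
-/

set_option autoImplicit false

open MeasureTheory Filter Topology
open scoped ENNReal

namespace Pool.Agent.Results.MP_37ff18_mp.WeakCuts

/-- The boundary of `S` in the region `R`: the bonds of `R` with exactly one end in `S`; the bond `e`
joins `a e` and `b e`. -/
def boundary {X E : Type} (a b : E → X) (R S : Set X) : Set E :=
  {e | (a e ∈ S ∧ b e ∈ R \ S) ∨ (b e ∈ S ∧ a e ∈ R \ S)}

/-- `R` is infinite and connected, each site has finitely many bonds. -/
structure IsRegion {X E : Type} (a b : E → X) (R : Set X) : Prop where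
  finite_bonds : ∀ x, {e | a e = x ∨ b e = x}.Finite
  infinite : R.Infinite
  connected : ∀ S : Set X, S ⊆ R → S.Nonempty → (R \ S).Nonempty → (boundary a b R S).Nonempty

/-- Configurations on `R`: `1` or `-1` at the sites of `R`, `0` at the other sites (so that the bonds
which leave `R` do not contribute to the energy). -/
def IsConfiguration {X : Type} (R : Set X) (σ : X → ℝ) : Prop :=
  (∀ x ∈ R, σ x = 1 ∨ σ x = -1) ∧ ∀ x, x ∉ R → σ x = 0

/-- Ground states on `R`: every change at finitely many sites of `R` (at least one) increases the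
energy `- ∑ J e * σ (a e) * σ (b e)`. -/
def IsGroundState {X E : Type} (a b : E → X) (R : Set X) (J : E → ℝ) (σ : X → ℝ) : Prop :=
  IsConfiguration R σ ∧ ∀ ρ : X → ℝ, IsConfiguration R ρ → {x | ρ x ≠ σ x}.Finite → ρ ≠ σ →
    0 < ∑ᶠ e, J e * (σ (a e) * σ (b e) - ρ (a e) * ρ (b e))

/-- There is exactly one pair `σ, -σ` of ground states. -/
def OnePair {X E : Type} (a b : E → X) (R : Set X) (J : E → ℝ) : Prop :=
  ∃ σ : X → ℝ, {ρ | IsGroundState a b R J ρ} = {σ, -σ}

/-- There are finite sets `B k` which exhaust `R`, with disjoint boundaries, such that for every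
`δ > 0` the sum over `k` of the probabilities that the sum of `|J e|` over the boundary of `B k` is
at most `δ` is infinite. -/
def WeakBoundaries {X E : Type} (a b : E → X) (R : Set X) (P : Measure (E → ℝ)) : Prop :=
  ∃ B : ℕ → Finset X, (∀ k, (B k : Set X) ⊆ R) ∧ (∀ x ∈ R, ∀ᶠ k in atTop, x ∈ B k) ∧
    Pairwise (fun j k => Disjoint (boundary a b R (B j)) (boundary a b R (B k))) ∧
    ∀ δ : ℝ, 0 < δ → ∑' k, P {J | ∑ᶠ e ∈ boundary a b R (B k), |J e| ≤ δ} = ∞

/-- Every finite set of sites of `R` lies in a finite set with at most `m` boundary bonds. -/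
def SmallBoundaries {X E : Type} (a b : E → X) (R : Set X) (m : ℕ) : Prop :=
  ∀ F : Finset X, (F : Set X) ⊆ R → ∃ B : Finset X, (B : Set X) ⊆ R ∧ F ⊆ B ∧
    (boundary a b R B).ncard ≤ m

/-- First end of a bond of `ℤ^(k + 1)`: the bond `(v, i)` joins `v` and `v + e_i`. -/
def left {k : ℕ} (e : (Fin (k + 1) → ℤ) × Fin (k + 1)) : Fin (k + 1) → ℤ := e.1

/-- Second end of a bond of `ℤ^(k + 1)`. -/
def right {k : ℕ} (e : (Fin (k + 1) → ℤ) × Fin (k + 1)) : Fin (k + 1) → ℤ :=
  e.1 + Pi.single e.2 1

/-- The horn of width `w` in `ℤ^(k + 1)`: `v 0 ≥ 0` and `|v i| ≤ w (v 0)` for all `i ≠ 0`. -/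
def horn (k : ℕ) (w : ℕ → ℕ) : Set (Fin (k + 1) → ℤ) :=
  {v | 0 ≤ v 0 ∧ ∀ i : Fin k, |v i.succ| ≤ (w (v 0).toNat : ℤ)}

/-- The cube of half side `n` in `ℤ^(k + 1)`. -/
def cube (k n : ℕ) : Set (Fin (k + 1) → ℤ) := {v | ∀ i, |v i| ≤ (n : ℤ)}

/-- First end of a bond of two lines joined by one bond: the sites are `(i, s)`, `s` = the line; the
bond `none` joins `(0, false)` and `(0, true)`, the bond `some (i, s)` joins `(i, s)` and
`(i + 1, s)`. -/
def start : Option (ℤ × Bool) → ℤ × Bool
  | none => (0, false)
  | some x => x

/-- Second end of a bond of two lines joined by one bond. -/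
def stop : Option (ℤ × Bool) → ℤ × Bool
  | none => (0, true)
  | some x => (x.1 + 1, x.2)

/-- **Theorem.** (1) On every infinite connected region, for independent couplings with laws without
atoms: exactly one pair of ground states, almost surely, if there are weak boundaries. (2) The same
for i.i.d. couplings if the law charges every neighbourhood of `0` and finite sets of sites can be
enclosed by boundedly many bonds. (3) In `ℤ^(k + 1)`, for a law with mass at least `c0 t^κ` on
`[-t, t]`: exactly one pair on every horn with `(2 w(n) + 1)^k log (2 w(n) + 2) ≤ log n / (2 κ (k + 1))`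
for all large `n`. (4) On all of `ℤ^(k + 1)`, for couplings `c e * J e` with `J` i.i.d. and
integrable: exactly one pair if the sum of `|c e|` over the boundary of the cube of half side `n`
tends to `0`. (5) Two lines joined by one bond satisfy the assumption in (2) with `m = 4`, but for
i.i.d. couplings with `1 ≤ |J| < 2` there are incongruent ground states almost surely. -/
theorem result :
    (∀ (X E : Type) [Countable X] [Countable E] (a b : E → X) (R : Set X), IsRegion a b R →
      (∀ (μ : E → Measure ℝ) [∀ e, IsProbabilityMeasure (μ e)], (∀ e x, μ e {x} = 0) →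
        WeakBoundaries a b R (Measure.infinitePi μ) →
          ∀ᵐ J ∂(Measure.infinitePi μ), OnePair a b R J) ∧
      ∀ (ν : Measure ℝ) [IsProbabilityMeasure ν], (∀ x, ν {x} = 0) →
        (∀ δ : ℝ, 0 < δ → 0 < ν (Set.Icc (-δ) δ)) → (∃ m, SmallBoundaries a b R m) →
          ∀ᵐ J ∂(Measure.infinitePi fun _ : E => ν), OnePair a b R J) ∧
    (∀ (k : ℕ) (ν : Measure ℝ) [IsProbabilityMeasure ν], (∀ x, ν {x} = 0) →
      (∀ (κ c0 : ℝ) (w : ℕ → ℕ), 0 < κ → 0 < c0 →
        (∀ t : ℝ, 0 < t → t ≤ 1 → c0 * t ^ κ ≤ ν.real (Set.Icc (-t) t)) → Monotone w →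
        (∀ᶠ n : ℕ in atTop, (2 * (w n : ℝ) + 1) ^ k * Real.log (2 * w n + 2) ≤
          Real.log n / (2 * κ * (k + 1))) →
        ∀ᵐ J ∂(Measure.infinitePi fun _ : (Fin (k + 1) → ℤ) × Fin (k + 1) => ν),
          OnePair left right (horn k w) J) ∧
      ∀ c : (Fin (k + 1) → ℤ) × Fin (k + 1) → ℝ, (∀ e, c e ≠ 0) → Integrable (fun x => x) ν →
        Tendsto (fun n : ℕ => ∑ᶠ e ∈ boundary left right Set.univ (cube k n), |c e|) atTop (𝓝 0) →
        ∀ᵐ J ∂(Measure.infinitePi fun _ : (Fin (k + 1) → ℤ) × Fin (k + 1) => ν),
          OnePair left right Set.univ (fun e => c e * J e)) ∧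
    IsRegion start stop Set.univ ∧ SmallBoundaries start stop Set.univ 4 ∧
    ∀ (ν : Measure ℝ) [IsProbabilityMeasure ν], (∀ᵐ x ∂ν, 1 ≤ |x| ∧ |x| < 2) →
      ∀ᵐ J ∂(Measure.infinitePi fun _ : Option (ℤ × Bool) => ν), ∃ σ τ : ℤ × Bool → ℝ,
        IsGroundState start stop Set.univ J σ ∧ IsGroundState start stop Set.univ J τ ∧
          τ ≠ σ ∧ τ ≠ -σ := by
  refine ⟨?_, ?_, ?_, ?_, ?_⟩
  · intro X E _ _ a b R hR
    refine ⟨?_, ?_⟩
    · rintro μ _ hat ⟨B, hBR, hex, hd, hw⟩
      set C : ℕ → Finset E := fun k => (Q233.WC.cut_finite (R := R) hR.finite_bonds (B k)).toFinset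
        with hC
      have hCc : ∀ k, (C k : Set E) = Q233.WC.cut a b R (B k) := fun k => by simp [hC]
      refine Q233.WC.pair_ae μ hat hR.finite_bonds hR.infinite hR.connected hBR hex hCc ?_ ?_
      · intro j k hjk
        have h1 := hd hjk
        rw [Function.onFun, ← Finset.disjoint_coe, hCc, hCc]
        exact h1
      · intro δ hδ
        rw [← hw δ hδ]
        refine tsum_congr fun k => ?_
        have h1 : ∀ J : E → ℝ, Q233.WC.wt (C k) J = ∑ᶠ e ∈ boundary a b R (B k), |J e| := by
          intro J
          have h2 : boundary a b R (B k) = (C k : Set E) := (hCc k).symm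
          rw [h2, finsum_mem_coe_finset]
          rfl
        simp only [h1]
        rfl
    · rintro ν _ hat h0 ⟨m, hm⟩
      exact Q233.WC.bounded_cuts hR.finite_bonds hR.infinite hR.connected hm ν hat h0
  · intro k ν _ hat
    refine ⟨?_, ?_⟩
    · intro κ c0 w hκ hc0 hν hw h
      refine Q233.WC.horn_unique ν hat hκ hc0 hν hw ?_
      filter_upwards [h] with n hn
      rw [one_div, inv_mul_eq_div]
      exact hn
    · intro c hc hint h
      refine Q233.WC.zd_unique ν hat hint c hc ?_
      have h1 : ∀ n : ℕ, (Q233.WC.cube k n : Set (Fin (k + 1) → ℤ)) = cube k n := by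
        intro n
        ext v
        rw [Finset.mem_coe, Q233.WC.mem_cube]
        rfl
      simp only [h1]
      exact h
  · exact ⟨Q233.WC.h_fib, Set.infinite_univ, Q233.WC.h_conn⟩
  · intro F _
    exact Q233.WC.h_encl F
  · intro ν _ h
    exact Q233.WC.h_incongruent ν h

end Pool.Agent.Results.MP_37ff18_mp.WeakCuts
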