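import Pool.Agent.Q234.EA.Zfin

/-!
# Edwards-Anderson ground states on wider horns

The sites are the points of `ℤ^d`, `d = k + 2 ≥ 2`; the bond `(v, i)` joins `v` and `v + e_i`, as in
the frozen statement of the problem.
-/

set_option autoImplicit false

open MeasureTheory Filter

namespace Pool.Agent.Results.MP_37ff18_mp.WiderHorns

/-- The horn of width `w`: the points `v` of `ℤ^(k + 2)` with `v 0 ≥ 0` and `|v i| ≤ w (v 0)` for
all `i ≠ 0`. -/
def horn (k : ℕ) (w : ℕ → ℕ) : Set (Fin (k + 2) → ℤ) :=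
  {v | 0 ≤ v 0 ∧ ∀ i : Fin (k + 1), |v i.succ| ≤ (w (v 0).toNat : ℤ)}

/-- A spin configuration on the region `R`: it is `1` or `-1` at the sites of `R`, and `0` at the
other sites (so that the bonds which leave `R` do not contribute to the energy). -/
def IsConfiguration {k : ℕ} (R : Set (Fin (k + 2) → ℤ)) (σ : (Fin (k + 2) → ℤ) → ℝ) : Prop :=
  (∀ v ∈ R, σ v = 1 ∨ σ v = -1) ∧ ∀ v, v ∉ R → σ v = 0

/-- `σ` is an infinite-volume ground state on `R` for the couplings `J`: every change at finitely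
many sites of `R` (at least one) increases the energy `- ∑ J (v, i) σ v σ (v + e_i)`. -/
def IsGroundState {k : ℕ} (R : Set (Fin (k + 2) → ℤ))
    (J : (Fin (k + 2) → ℤ) × Fin (k + 2) → ℝ) (σ : (Fin (k + 2) → ℤ) → ℝ) : Prop :=
  IsConfiguration R σ ∧ ∀ ρ : (Fin (k + 2) → ℤ) → ℝ, IsConfiguration R ρ →
    {v | ρ v ≠ σ v}.Finite → ρ ≠ σ →
      0 < ∑ᶠ e : (Fin (k + 2) → ℤ) × Fin (k + 2),
        J e * (σ e.1 * σ (e.1 + (Pi.single e.2 (1 : ℤ) : Fin (k + 2) → ℤ))
          - ρ e.1 * ρ (e.1 + (Pi.single e.2 (1 : ℤ) : Fin (k + 2) → ℤ)))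

/-- **Theorem.** Let `d = k + 2 ≥ 2` and let `μ` be a symmetric probability measure on `ℝ` without
atoms. There is `c > 0` such that for every nondecreasing sequence of widths `w` with
`(2 w(n) + 1)^(2 d - 3) log (2 w(n) + 2) ≤ c log n` for all large `n` (in `d = 2`:
`(2 w(n) + 1) log (2 w(n) + 2) ≤ c log n`), for almost every realisation of i.i.d. couplings of law
`μ` on the bonds of `ℤ^d` there is exactly one pair `σ, -σ` of ground states on the horn of width
`w`. -/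
theorem result (k : ℕ) (μ : Measure ℝ) [IsProbabilityMeasure μ]
    (hatom : ∀ x : ℝ, μ {x} = 0) (hsym : μ.map (fun x => -x) = μ) :
    ∃ c : ℝ, 0 < c ∧ ∀ w : ℕ → ℕ, Monotone w →
      (∀ᶠ n : ℕ in atTop,
        (2 * (w n : ℝ) + 1) ^ (2 * k + 1) * Real.log (2 * w n + 2) ≤ c * Real.log n) →
      ∀ᵐ J ∂(Measure.infinitePi fun _ : (Fin (k + 2) → ℤ) × Fin (k + 2) => μ),
        ∃ σ : (Fin (k + 2) → ℤ) → ℝ, {ρ | IsGroundState (horn k w) J ρ} = {σ, -σ} := by
  obtain ⟨c, hc, h⟩ := Q234.EA.Zer.main (k := k) μ hatom hsym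
  refine ⟨c, hc, fun w hw hg => ?_⟩
  filter_upwards [h w hw hg] with J hJ
  obtain ⟨s, hs⟩ := hJ
  exact ⟨s, Set.ext fun ρ => hs ρ⟩

end Pool.Agent.Results.MP_37ff18_mp.WiderHorns
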